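import Pool.Agent.W120.WM.B2

/-!
# Weak Mertens is equivalent to almost periodicity of `M(e^v) e^{-v/2}`

Let `M(u) = ∑_{n ≤ u} μ(n)`.  The weak Mertens bound `∫_1^x (M(u)/u)² du ≪ log x` holds IF AND ONLY IF the function
`v ↦ M(e^v) e^{-v/2}` is Besicovitch `B²`-almost periodic, i.e. for every `ε > 0` there is a trigonometric
polynomial `P` with `∫_0^V |M(e^v) e^{-v/2} - P(v)|² dv ≤ ε V` for all large `V`.  Moreover, if the bound holds, `P`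
can be taken of the form `∑_{ρ ∈ Z} e^{(ρ - 1/2) v} / (ρ ζ'(ρ))` with `Z` a finite set of nontrivial zeros.

The proof combines the exact asymptotic `∫_1^x (M(u)/u)² du ~ log x ∑_ρ 1/|ρ ζ'(ρ)|²` (`ZeroSumCriterion`) with the
Fourier coefficients of `M(e^v) e^{-v/2}` at the ordinates of the zeros.
-/

set_option autoImplicit false

open Filter Topology

namespace Pool.Agent.Results.MP_323ce2_nt.BesicovitchAlmostPeriodic

/-- `M(u) = ∑_{1 ≤ n ≤ u} μ(n)` -/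
noncomputable def M (u : ℝ) : ℝ :=
  ∑ n ∈ Finset.Icc 1 ⌊u⌋₊, ((ArithmeticFunction.moebius n : ℤ) : ℝ)

/-- the weak Mertens bound -/
def WeakMertens : Prop :=
  ∃ C : ℝ, ∀ x : ℝ, 2 ≤ x → ∫ u in (1 : ℝ)..x, (M u / u) ^ 2 ≤ C * Real.log x

theorem result :
    (WeakMertens ↔ ∀ ε : ℝ, 0 < ε → ∃ (Γ : Finset ℝ) (a : ℝ → ℂ), ∀ᶠ V : ℝ in atTop,
      ∫ v in (0 : ℝ)..V, ‖((M (Real.exp v) * Real.exp (-(v / 2)) : ℝ) : ℂ) -
        ∑ γ ∈ Γ, a γ * Complex.exp (γ * v * Complex.I)‖ ^ 2 ≤ ε * V) ∧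
    (WeakMertens → ∀ ε : ℝ, 0 < ε → ∃ Z : Finset ℂ,
      (∀ ρ ∈ Z, riemannZeta ρ = 0 ∧ 0 < ρ.re ∧ ρ.re < 1) ∧ ∀ᶠ V : ℝ in atTop,
      ∫ v in (0 : ℝ)..V, ‖((M (Real.exp v) * Real.exp (-(v / 2)) : ℝ) : ℂ) -
        ∑ ρ ∈ Z, 1 / (ρ * deriv riemannZeta ρ) * Complex.exp ((ρ - 1 / 2) * v)‖ ^ 2 ≤ ε * V) := by
  obtain ⟨K, -, -, h⟩ := W120.WM.final2 W120.WM.sharpT
  have hWM : WeakMertens ↔ W120.WM.ZC := h.out 0 2
  refine ⟨hWM.trans W120.B2.main, fun hW ε hε => ?_⟩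
  obtain ⟨Z, hZ1, hZ2⟩ := W120.B2.upper (hWM.1 hW) hε
  refine ⟨Z, hZ1, ?_⟩
  filter_upwards [hZ2, eventually_gt_atTop (0 : ℝ)] with V h1 h2
  rw [intervalIntegral.integral_of_le h2.le]
  refine le_trans (le_of_eq ?_) h1
  refine MeasureTheory.integral_congr_ae (Eventually.of_forall fun s => ?_)
  simp only [Complex.normSq_eq_norm_sq]
  rfl

end Pool.Agent.Results.MP_323ce2_nt.BesicovitchAlmostPeriodic
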