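import Pool.Agent.W120.WM.Lim

/-!
# The limit of `I(x) / log x` exists in `(0, ∞]` and equals `∑ 1 / |ρ ζ'(ρ)|²`

Let `M(u) = ∑_{n ≤ u} μ(n)` and `I(x) = ∫_1^x (M(u)/u)² du`.  Unconditionally

`lim_{x → ∞} I(x) / log x = ∑_ρ 1 / |ρ ζ'(ρ)|²`,

where the right-hand side is read as `+∞` when the Riemann Hypothesis fails, or some nontrivial zero is multiple,
or the series diverges; more generally `(1 / log x) ∫_{x^{1-δ}}^x (M(u)/u)² du` tends to `δ` times the series for
every `0 < δ ≤ 1`.  In particular the weak Mertens hypothesis `I(x) ≪ log x` is EQUIVALENT to: the Riemann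
Hypothesis holds, all nontrivial zeros are simple and `∑_ρ 1 / |ρ ζ'(ρ)|²` converges.

Idea of the proof: between two consecutive zeros `a < b` of the real entire function `Ξ(t) = ξ(1/2 + it)`, which
has only real zeros, `log |Ξ(y) / ((y-a)(y-b))|` is concave, which gives a lower bound for `|ξ(1/2 + δ + it)|` by
the geometric mean of the derivatives at the two zeros; so `∫ |1/(s ζ(s))|² |ds|` over the part of the line
`Re s = 1/2 + δ` above the gap `(a, b)` is `O((1/|ρ_a ζ'(ρ_a)|² + 1/|ρ_b ζ'(ρ_b)|²) / δ)` with no loss from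
clusters of zeros; dominated convergence, Plancherel's theorem for a Gaussian smoothing of `M` and a Tauberian
argument finish the proof.
-/

set_option autoImplicit false

open Filter Topology

namespace Pool.Agent.Results.MP_323ce2_nt.ZeroSumCriterion

/-- `∫_a^b (M(u)/u)² du` -/
noncomputable def msq (a b : ℝ) : ℝ :=
  ∫ u in a..b, ((∑ n ∈ Finset.Icc 1 ⌊u⌋₊, ((ArithmeticFunction.moebius n : ℤ) : ℝ)) / u) ^ 2

/-- the nontrivial zeros of the Riemann zeta function -/
def NT : Set ℂ := {s : ℂ | riemannZeta s = 0 ∧ 0 < s.re ∧ s.re < 1}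

/-- the Riemann Hypothesis holds, all nontrivial zeros are simple and `∑ 1 / |ρ ζ'(ρ)|²` converges -/
def ZerosCondition : Prop := (∀ ρ ∈ NT, ρ.re = 1 / 2 ∧ deriv riemannZeta ρ ≠ 0) ∧
  Summable (fun ρ : NT => 1 / ‖(ρ : ℂ) * deriv riemannZeta ρ‖ ^ 2)

theorem result :
    ((∃ C : ℝ, ∀ x : ℝ, 2 ≤ x → msq 1 x ≤ C * Real.log x) ↔ ZerosCondition) ∧
    ∀ δ : ℝ, 0 < δ → δ ≤ 1 →
      (ZerosCondition → Tendsto (fun x : ℝ => msq (x ^ (1 - δ)) x / Real.log x) atTop
        (𝓝 (δ * ∑' ρ : NT, 1 / ‖(ρ : ℂ) * deriv riemannZeta ρ‖ ^ 2))) ∧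
      (¬ ZerosCondition → Tendsto (fun x : ℝ => msq (x ^ (1 - δ)) x / Real.log x) atTop
        atTop) := by
  obtain ⟨K, -, -, h⟩ := W120.WM.final2 W120.WM.sharpT
  exact ⟨h.out 0 2, fun δ hδ hδ1 => W120.WM.final3 δ hδ hδ1⟩

end Pool.Agent.Results.MP_323ce2_nt.ZeroSumCriterion
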